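import Pool.Agent.W732.Cor.Stm
import Pool.Agent.W732.Cor.Stm2

/-! Project COR: slice localisation on the ball. -/

set_option autoImplicit false

open MeasureTheory Metric Set Filter Topology Complex
open scoped ContDiff

namespace Pool.Agent.W597.Cor.Ball

open Pool.Agent.H720R2.HP Pool.Agent.H788R3.Cor2 Pool.Agent.W732.Cor

/-- the domain -/
def DD (E : Type) [NormedAddCommGroup E] : Set (ℂ × E) := {q | ‖q.1‖ ^ 2 + ‖q.2‖ ^ 2 < 1}

/-- the retractions -/
noncomputable def LL (E : Type) [NormedAddCommGroup E] [NormedSpace ℂ E] (c : ℂ) (q : ℂ × E) : E :=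
  (((1 - ‖c‖ ^ 2 : ℝ) : ℂ) / (1 - starRingEnd ℂ c * q.1)) • q.2

theorem den_ne {c z : ℂ} (hc : ‖c‖ < 1) (hz : ‖z‖ < 1) : 1 - starRingEnd ℂ c * z ≠ 0 := by
  intro h
  have h1 : ‖starRingEnd ℂ c * z‖ = 1 := by
    have : starRingEnd ℂ c * z = 1 := by linear_combination -h
    rw [this, norm_one]
  rw [norm_mul, Complex.norm_conj] at h1
  nlinarith [norm_nonneg c, norm_nonneg z]

theorem ineq (c z : ℂ) :
    (1 - ‖c‖ ^ 2) * (1 - ‖z‖ ^ 2) ≤ ‖1 - starRingEnd ℂ c * z‖ ^ 2 := by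
  have h1 : ‖1 - starRingEnd ℂ c * z‖ ^ 2 = (1 - ‖c‖ ^ 2) * (1 - ‖z‖ ^ 2) + ‖z - c‖ ^ 2 := by
    rw [← Complex.normSq_eq_norm_sq, ← Complex.normSq_eq_norm_sq, ← Complex.normSq_eq_norm_sq,
      ← Complex.normSq_eq_norm_sq]
    simp only [Complex.normSq_apply, Complex.sub_re, Complex.sub_im, Complex.mul_re,
      Complex.mul_im, Complex.one_re, Complex.one_im, Complex.conj_re, Complex.conj_im]
    ring
  rw [h1]
  have := sq_nonneg ‖z - c‖
  linarith

theorem dd_le {c z : ℂ} (hc : ‖c‖ < 1) (hz : ‖z‖ < 1) : dd c z ≤ 1 := by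
  unfold dd
  have h0 := norm_pos_iff.2 (den_ne hc hz)
  rw [div_le_one h0]
  apply Real.sqrt_le_iff.2
  exact ⟨h0.le, ineq c z⟩

variable (E : Type) [NormedAddCommGroup E] [NormedSpace ℂ E] [FiniteDimensional ℂ E]

omit [NormedSpace ℂ E] [FiniteDimensional ℂ E] in
theorem sub_ball {q : ℂ × E} (hq : q ∈ DD E) : ‖q.1‖ < 1 := by
  have h1 : ‖q.1‖ ^ 2 + ‖q.2‖ ^ 2 < 1 := hq
  nlinarith [norm_nonneg q.1, sq_nonneg ‖q.2‖]

omit [FiniteDimensional ℂ E] in
theorem dec_aux {c : ℂ} (hc : ‖c‖ < 1) {q : ℂ × E} (hq : q ∈ DD E) {t : ℂ}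
    (ht : ‖t‖ * dd c q.1 ≤ 1) : (c, t • LL E c q) ∈ DD E := by
  have hz := sub_ball E hq
  have hq' : ‖q.1‖ ^ 2 + ‖q.2‖ ^ 2 < 1 := hq
  set n := ‖1 - starRingEnd ℂ c * q.1‖ with hn
  have hn0 : 0 < n := norm_pos_iff.2 (den_ne hc hz)
  set a := 1 - ‖c‖ ^ 2 with ha
  have ha0 : 0 < a := by
    rw [ha]; nlinarith [norm_nonneg c]
  set b := 1 - ‖q.1‖ ^ 2 with hb
  have hyb : ‖q.2‖ ^ 2 < b := by rw [hb]; linarith
  have hb0 : 0 < b := lt_of_le_of_lt (sq_nonneg _) hyb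
  show ‖c‖ ^ 2 + ‖t • LL E c q‖ ^ 2 < 1
  have h1 : ‖t • LL E c q‖ ^ 2 = ‖t‖ ^ 2 * (a ^ 2 / n ^ 2) * ‖q.2‖ ^ 2 := by
    unfold LL
    rw [norm_smul, norm_smul, norm_div, Complex.norm_real, Real.norm_eq_abs, ← ha,
      abs_of_pos ha0, ← hn]
    ring
  rw [h1]
  have h2 : ‖t‖ ^ 2 * (a * b) ≤ n ^ 2 := by
    unfold dd at ht
    rw [← mul_div_assoc, div_le_one hn0] at ht
    have h3 := pow_le_pow_left₀ (by positivity) ht 2
    rw [mul_pow, Real.sq_sqrt (by positivity)] at h3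
    exact h3
  by_cases ht0 : t = 0
  · rw [ht0, norm_zero]
    have : ‖c‖ ^ 2 < 1 := by rw [ha] at ha0; linarith
    simpa using this
  · have ht1 : 0 < ‖t‖ ^ 2 := by
      have := norm_pos_iff.2 ht0
      positivity
    have h4 : ‖t‖ ^ 2 * (a ^ 2 / n ^ 2) * ‖q.2‖ ^ 2 < ‖t‖ ^ 2 * (a ^ 2 / n ^ 2) * b :=
      mul_lt_mul_of_pos_left hyb (by positivity)
    have h5 : ‖t‖ ^ 2 * (a ^ 2 / n ^ 2) * b = a * ((‖t‖ ^ 2 * (a * b)) / n ^ 2) := by ring
    have h6 : (‖t‖ ^ 2 * (a * b)) / n ^ 2 ≤ 1 := by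
      rw [div_le_one (by positivity)]; exact h2
    have h7 : a * ((‖t‖ ^ 2 * (a * b)) / n ^ 2) ≤ a := mul_le_of_le_one_right ha0.le h6
    have h8 : ‖c‖ ^ 2 = 1 - a := by rw [ha]; ring
    linarith

theorem tubeD : TubeD (DD E) (LL E) := by
  refine ⟨⟨?_, ?_, ?_, ?_, ?_, ?_⟩, ?_, ?_⟩
  · exact isOpen_lt (by fun_prop) continuous_const
  · intro q hq
    rw [mem_ball_zero_iff]
    exact sub_ball E hq
  · intro c hc q hq
    rw [mem_ball_zero_iff] at hc
    have h1 := dec_aux E hc hq (t := 1) (by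
      rw [norm_one, one_mul]; exact dd_le hc (sub_ball E hq))
    rwa [one_smul] at h1
  · intro c y hy
    have hc := sub_ball E hy
    unfold LL
    have h1 : ((1 - ‖c‖ ^ 2 : ℝ) : ℂ) = 1 - starRingEnd ℂ c * c := by
      rw [mul_comm, Complex.mul_conj, Complex.normSq_eq_norm_sq]
      push_cast
      ring
    show (((1 - ‖c‖ ^ 2 : ℝ) : ℂ) / (1 - starRingEnd ℂ c * c)) • y = y
    rw [h1, div_self (den_ne hc hc), one_smul]
  · intro c hc q hq
    rw [mem_ball_zero_iff] at hc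
    have h0 := den_ne hc (sub_ball E hq)
    unfold LL
    have h2 : DifferentiableAt ℂ (fun w : ℂ => ((1 - ‖c‖ ^ 2 : ℝ) : ℂ) /
        (1 - starRingEnd ℂ c * w)) q.1 := by
      apply DifferentiableAt.fun_div
      · fun_prop
      · fun_prop
      · exact h0
    have h1 : DifferentiableAt ℂ (fun q : ℂ × E => ((1 - ‖c‖ ^ 2 : ℝ) : ℂ) /
        (1 - starRingEnd ℂ c * q.1)) q :=
      DifferentiableAt.comp (f := fun p : ℂ × E => p.1) q h2 differentiableAt_fst
    exact h1.smul differentiableAt_snd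
  · intro y
    unfold LL
    have h1 : ContinuousOn (fun q : ℂ × ℂ => ((1 - ‖q.1‖ ^ 2 : ℝ) : ℂ) /
        (1 - starRingEnd ℂ q.1 * q.2)) {q | q.1 ∈ ball (0 : ℂ) 1 ∧ (q.2, y) ∈ DD E} := by
      apply ContinuousOn.div
      · apply Continuous.continuousOn
        fun_prop
      · apply Continuous.continuousOn
        have : Continuous (fun z : ℂ => starRingEnd ℂ z) := Complex.continuous_conj
        fun_prop
      · rintro ⟨c, z⟩ ⟨h1, h2⟩
        rw [mem_ball_zero_iff] at h1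
        exact den_ne h1 (sub_ball E h2)
    exact h1.smul continuousOn_const
  · intro c hc
    rw [mem_ball_zero_iff] at hc
    show ‖c‖ ^ 2 + ‖(0 : E)‖ ^ 2 < 1
    rw [norm_zero]
    nlinarith [norm_nonneg c]
  · intro c hc q hq t ht
    rw [mem_ball_zero_iff] at hc
    exact dec_aux E hc hq ht

theorem main : S_disc → S_ball := by
  intro hdisc N C
  obtain ⟨C', hC'⟩ := hdisc N C
  refine ⟨C', ?_⟩
  intro m p hp F hF hFb hslice
  let E := ((Submodule.span ℂ {p})ᗮ : Submodule ℂ (V m))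
  have hpp : (inner ℂ p p : ℂ) = 1 := by
    rw [inner_self_eq_norm_sq_to_K, hp]; simp
  have hpE : ∀ y : E, (inner ℂ p (y : V m) : ℂ) = 0 := by
    intro y
    exact (Submodule.mem_orthogonal _ _).1 y.2 p (Submodule.mem_span_singleton_self p)
  let J : ℂ × E → V m := fun q => q.1 • p + (q.2 : V m)
  have hJd : Differentiable ℂ J := by
    have h1 : Differentiable ℂ (fun q : ℂ × E => (q.2 : V m)) :=
      (E.subtypeL.differentiable).comp differentiable_snd
    exact (differentiable_fst.smul_const p).add h1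
  have hJin : ∀ q, (inner ℂ p (J q) : ℂ) = q.1 := by
    intro q
    simp only [J]
    rw [inner_add_right, inner_smul_right, hpp, hpE, mul_one, add_zero]
  have hJn : ∀ q, ‖J q‖ ^ 2 = ‖q.1‖ ^ 2 + ‖q.2‖ ^ 2 := by
    intro q
    have h1 := norm_add_sq_eq_norm_sq_add_norm_sq_of_inner_eq_zero (𝕜 := ℂ) (q.1 • p) (q.2 : V m)
      (by rw [inner_smul_left, hpE, mul_zero])
    simp only [J]
    rw [pow_two, h1, norm_smul, hp, mul_one, ← pow_two, ← pow_two]
    rfl
  let L : V m →ₗ[ℂ] E := LinearMap.codRestrict E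
    (LinearMap.id - (innerSL ℂ p : V m →L[ℂ] ℂ).toLinearMap.smulRight p) (by
      intro z
      rw [Submodule.mem_orthogonal_singleton_iff_inner_right]
      simp only [LinearMap.sub_apply, LinearMap.id_apply, LinearMap.smulRight_apply,
        ContinuousLinearMap.coe_coe, innerSL_apply_apply]
      rw [inner_sub_right, inner_smul_right, hpp, mul_one, sub_self])
  let J' : V m → ℂ × E := fun z => (inner ℂ p z, L z)
  have hJ'd : Differentiable ℂ J' := by
    have h1 : Differentiable ℂ (fun z : V m => (inner ℂ p z : ℂ)) :=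
      (innerSL ℂ p : V m →L[ℂ] ℂ).differentiable
    have h2 : Differentiable ℂ (fun z : V m => L z) :=
      (LinearMap.toContinuousLinearMap L).differentiable
    exact h1.prodMk h2
  have hJJ : ∀ z, J (J' z) = z := by
    intro z
    show (inner ℂ p z : ℂ) • p + ((L z : E) : V m) = z
    have h1 : ((L z : E) : V m) = z - (inner ℂ p z : ℂ) • p := rfl
    rw [h1]
    abel
  have hJm : MapsTo J (DD E) (ball 0 1) := by
    intro q hq
    have h1 : ‖q.1‖ ^ 2 + ‖q.2‖ ^ 2 < 1 := hq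
    rw [mem_ball_zero_iff]
    have h2 := hJn q
    nlinarith [norm_nonneg (J q)]
  have hJ'm : MapsTo J' (ball 0 1) (DD E) := by
    intro z hz
    rw [mem_ball_zero_iff] at hz
    show ‖(J' z).1‖ ^ 2 + ‖(J' z).2‖ ^ 2 < 1
    rw [← hJn, hJJ]
    nlinarith [norm_nonneg z]
  obtain ⟨h, h1, h2, h3⟩ := hC' E (DD E) (LL E) (tubeD E) (fun i q => F i (J q))
    (fun i => (hF i).comp hJd.differentiableOn hJm) (fun i q hq => hFb i _ (hJm hq)) (by
      intro a ha
      obtain ⟨g, g₀, k1, k2, k3, k4, k5⟩ := hslice a ha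
      refine ⟨fun i q => g i (J q), fun q => g₀ (J q),
        fun i => (k1 i).comp hJd.differentiableOn hJm,
        k2.comp hJd.differentiableOn hJm, fun i q hq => k3 i _ (hJm hq),
        fun q hq => k4 _ (hJm hq), ?_⟩
      intro q hq
      have h4 := k5 _ (hJm hq)
      rw [hJin] at h4
      exact h4)
  refine ⟨fun i z => h i (J' z), fun i => (h1 i).comp hJ'd.differentiableOn hJ'm,
    fun i z hz => h2 i _ (hJ'm hz), ?_⟩
  intro z hz
  have h4 := h3 _ (hJ'm hz)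
  simp only [hJJ] at h4
  exact h4

end Pool.Agent.W597.Cor.Ball
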